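import Pool.Agent.W774.TL.Stm

/-! One-dimensional Legendre duality with parameters. -/

set_option autoImplicit false

namespace Pool.Agent.W825.TL

open Set Filter Topology Pool.Agent.W774.TL

abbrev E3 := ℝ × ℝ × ℝ

/-- derivative along the middle coordinate -/
theorem hasDerivAt_mid {F : E3 → ℝ} (hF : Differentiable ℝ F) (x p t : ℝ) :
    HasDerivAt (fun s => F (x, s, t)) (fderiv ℝ F (x, p, t) (0, 1, 0)) p := by
  have h1 : HasDerivAt (fun s : ℝ => ((x, s, t) : E3)) (0, 1, 0) p :=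
    (hasDerivAt_const p x).prodMk ((hasDerivAt_id p).prodMk (hasDerivAt_const p t))
  exact (hF (x, p, t)).hasFDerivAt.comp_hasDerivAt p h1

theorem hasDerivAt_curve {F : E3 → ℝ} (hF : Differentiable ℝ F) (u : ℝ → ℝ) (u' x t : ℝ)
    (hu : HasDerivAt u u' x) :
    HasDerivAt (fun s => F (s, u s, t)) (fderiv ℝ F (x, u x, t) (1, u', 0)) x := by
  have h1 : HasDerivAt (fun s : ℝ => ((s, u s, t) : E3)) (1, u', 0) x :=
    (hasDerivAt_id x).prodMk (hu.prodMk (hasDerivAt_const x t))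
  exact (hF (x, u x, t)).hasFDerivAt.comp_hasDerivAt x h1

/-- the linear map `(dx, dp, dt) ↦ (dx, L d, dt)` -/
noncomputable def M (L : E3 →L[ℝ] ℝ) : E3 →L[ℝ] E3 :=
  (ContinuousLinearMap.fst ℝ ℝ (ℝ × ℝ)).prod
    (L.prod ((ContinuousLinearMap.snd ℝ ℝ ℝ).comp (ContinuousLinearMap.snd ℝ ℝ (ℝ × ℝ))))

theorem M_inj (L : E3 →L[ℝ] ℝ) (hL : L (0, 1, 0) ≠ 0) : Function.Injective (M L) := by
  rw [injective_iff_map_eq_zero]
  rintro ⟨a, b, c⟩ h
  have h1 : a = 0 := congrArg Prod.fst h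
  have h2 : L (a, b, c) = 0 := congrArg (fun q : E3 => q.2.1) h
  have h3 : c = 0 := congrArg (fun q : E3 => q.2.2) h
  subst h1 h3
  have h4 : ((0, b, 0) : E3) = b • ((0, 1, 0) : E3) := by simp
  rw [h4, map_smul, smul_eq_mul] at h2
  have h5 : b = 0 := by
    rcases mul_eq_zero.1 h2 with h | h
    · exact h
    · exact absurd h hL
  subst h5
  rfl

noncomputable def Me (L : E3 →L[ℝ] ℝ) (hL : L (0, 1, 0) ≠ 0) : E3 ≃L[ℝ] E3 :=
  ContinuousLinearEquiv.ofBijective (M L)
    (LinearMap.ker_eq_bot.2 (M_inj L hL))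
    (LinearMap.range_eq_top.2 ((LinearMap.injective_iff_surjective
      (f := ((M L : E3 →L[ℝ] E3) : E3 →ₗ[ℝ] E3))).1 (M_inj L hL)))

theorem Me_coe (L : E3 →L[ℝ] ℝ) (hL : L (0, 1, 0) ≠ 0) : (Me L hL : E3 →L[ℝ] E3) = M L :=
  ContinuousLinearEquiv.coe_ofBijective _ _ _

/-- smoothness of the inverse of a triangular bijection -/
theorem smooth_inv {G : E3 → ℝ} (hG : ContDiff ℝ (⊤ : ℕ∞) G)
    (hpos : ∀ q, fderiv ℝ G q (0, 1, 0) ≠ 0) (Ψ : E3 → E3)
    (h1 : ∀ q, Ψ (q.1, G q, q.2.2) = q) (h2 : ∀ q, ((Ψ q).1, G (Ψ q), (Ψ q).2.2) = q) :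
    ContDiff ℝ (⊤ : ℕ∞) Ψ := by
  set Φ : E3 → E3 := fun q => (q.1, G q, q.2.2) with hΦ
  have hΦs : ContDiff ℝ (⊤ : ℕ∞) Φ :=
    contDiff_fst.prodMk (hG.prodMk (contDiff_snd.comp contDiff_snd))
  rw [contDiff_iff_contDiffAt]
  intro y
  set a := Ψ y with ha
  have hay : Φ a = y := h2 y
  have hL := hpos a
  have hd : HasFDerivAt Φ ((Me (fderiv ℝ G a) hL : E3 ≃L[ℝ] E3) : E3 →L[ℝ] E3) a := by
    rw [Me_coe]
    have e1 : HasFDerivAt G (fderiv ℝ G a) a :=
      ((hG.differentiable (by simp)) a).hasFDerivAt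
    have e2 : HasFDerivAt (fun q : E3 => q.2.2)
        ((ContinuousLinearMap.snd ℝ ℝ ℝ).comp (ContinuousLinearMap.snd ℝ ℝ (ℝ × ℝ))) a :=
      ((ContinuousLinearMap.snd ℝ ℝ ℝ).comp (ContinuousLinearMap.snd ℝ ℝ (ℝ × ℝ))).hasFDerivAt
    exact hasFDerivAt_fst.prodMk (e1.prodMk e2)
  have hc : ContDiffAt ℝ (⊤ : ℕ∞) Φ a := hΦs.contDiffAt
  have hn : (((⊤ : ℕ∞) : WithTop ℕ∞)) ≠ 0 := by simp
  have key := hc.to_localInverse hd hn
  rw [hay] at key
  refine key.congr_of_eventuallyEq ?_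
  have hs := hc.hasStrictFDerivAt' hd hn
  have hr := hs.eventually_right_inverse
  rw [hay] at hr
  filter_upwards [hr] with z hz
  have h3 : Ψ (Φ (hs.localInverse Φ _ a z)) = hs.localInverse Φ _ a z := h1 _
  rw [hz] at h3
  exact h3

/-- the minimiser -/
theorem exists_min (f : ℝ → ℝ) (hf : Continuous f)
    (hK : ∀ K : ℝ, ∃ B : ℝ, ∀ p : ℝ, K * |p| - B ≤ f p) (v : ℝ) :
    ∃ p, ∀ q, f p - p * v ≤ f q - q * v := by
  have hc : Continuous (fun p => f p - p * v) := hf.sub (continuous_id.mul continuous_const)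
  obtain ⟨B, hB⟩ := hK (|v| + 1)
  refine hc.exists_forall_le ?_
  have h1 : Tendsto (fun p : ℝ => ‖p‖) (cocompact ℝ) atTop := tendsto_norm_cocompact_atTop
  have h2 : Tendsto (fun p : ℝ => ‖p‖ - B) (cocompact ℝ) atTop :=
    tendsto_atTop_add_const_right _ (-B) h1
  refine tendsto_atTop_mono (fun p => ?_) h2
  have h3 := hB p
  have h4 : p * v ≤ |v| * |p| := by
    calc p * v ≤ |p * v| := le_abs_self _
      _ = |v| * |p| := by rw [abs_mul, mul_comm]
  rw [Real.norm_eq_abs]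
  nlinarith

theorem leg_thm : P_LEG := by
  intro H hH hpp hsup hbd hper
  set F : E3 → ℝ := fun q => H q.1 q.2.1 q.2.2 with hF
  have hFd : Differentiable ℝ F := hH.differentiable (by simp)
  set G : E3 → ℝ := fun q => fderiv ℝ F q (0, 1, 0) with hG
  have hGs : ContDiff ℝ (⊤ : ℕ∞) G :=
    (hH.fderiv_right (m := ((⊤ : ℕ∞) : WithTop ℕ∞)) (by simp)).clm_apply contDiff_const
  have hGd : Differentiable ℝ G := hGs.differentiable (by simp)
  have hHp : ∀ x p t, HasDerivAt (fun s => H x s t) (G (x, p, t)) p :=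
    fun x p t => hasDerivAt_mid hFd x p t
  have hdG : ∀ x t, deriv (fun s => H x s t) = fun p => G (x, p, t) := by
    intro x t; funext p; exact (hHp x p t).deriv
  have hGp : ∀ x p t, HasDerivAt (fun s => G (x, s, t)) (fderiv ℝ G (x, p, t) (0, 1, 0)) p :=
    fun x p t => hasDerivAt_mid hGd x p t
  have hpp' : ∀ x p t, 0 < fderiv ℝ G (x, p, t) (0, 1, 0) := by
    intro x p t
    have := hpp x p t
    rw [hdG, (hGp x p t).deriv] at this
    exact this
  have hmono : ∀ x t, StrictMono (fun p => G (x, p, t)) := by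
    intro x t
    apply strictMono_of_deriv_pos
    intro p
    rw [(hGp x p t).deriv]
    exact hpp' x p t
  have hex : ∀ x v t, ∃ p, ∀ q, H x p t - p * v ≤ H x q t - q * v := by
    intro x v t
    refine exists_min (fun p => H x p t) ?_ ?_ v
    · exact continuous_iff_continuousAt.2 fun p => (hHp x p t).continuousAt
    · intro K
      obtain ⟨B, hB⟩ := hsup K
      exact ⟨B, fun p => hB x p t⟩
  choose P hP using hex
  have hGP : ∀ x v t, G (x, P x v t, t) = v := by
    intro x v t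
    have h1 : IsLocalMin (fun p => H x p t - p * v) (P x v t) :=
      Filter.Eventually.of_forall (fun q => hP x v t q)
    have h2 : HasDerivAt (fun p => H x p t - p * v) (G (x, P x v t, t) - 1 * v) (P x v t) :=
      (hHp x _ t).sub ((hasDerivAt_id _).mul_const v)
    have h3 := h1.hasDerivAt_eq_zero h2
    linarith
  have hPG : ∀ x p t, P x (G (x, p, t)) t = p := by
    intro x p t
    exact (hmono x t).injective (hGP x _ t)
  have hΨ : ContDiff ℝ (⊤ : ℕ∞) (fun q : E3 => ((q.1, P q.1 q.2.1 q.2.2, q.2.2) : E3)) := by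
    refine smooth_inv hGs (fun q => (hpp' q.1 q.2.1 q.2.2).ne') _ ?_ ?_
    · rintro ⟨x, p, t⟩
      show ((x, P x (G (x, p, t)) t, t) : E3) = (x, p, t)
      rw [hPG]
    · rintro ⟨x, v, t⟩
      show ((x, G (x, P x v t, t), t) : E3) = (x, v, t)
      rw [hGP]
  have hPs : ContDiff ℝ (⊤ : ℕ∞) (fun q : E3 => P q.1 q.2.1 q.2.2) :=
    (contDiff_fst.comp contDiff_snd).comp hΨ
  have hPd : Differentiable ℝ (fun q : E3 => P q.1 q.2.1 q.2.2) := hPs.differentiable (by simp)
  have hls : ContDiff ℝ (⊤ : ℕ∞)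
      (fun q : E3 => P q.1 q.2.1 q.2.2 * q.2.1 - H q.1 (P q.1 q.2.1 q.2.2) q.2.2) :=
    (hPs.mul (contDiff_fst.comp contDiff_snd)).sub (hH.comp hΨ)
  have hPv : ∀ x v t, ∃ P' : ℝ, HasDerivAt (fun s => P x s t) P' v :=
    fun x v t => ⟨_, hasDerivAt_mid hPd x v t⟩
  have hPx : ∀ x v t, ∃ P' : ℝ, HasDerivAt (fun s => P s v t) P' x := by
    intro x v t
    exact ⟨_, hasDerivAt_curve hPd (fun _ => v) 0 x t (hasDerivAt_const x v)⟩
  have hPper1 : ∀ x v t, P (x + 1) v t = P x v t := by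
    intro x v t
    apply (hmono x t).injective
    show G (x, P (x + 1) v t, t) = G (x, P x v t, t)
    rw [hGP]
    have h1 : (fun s => H (x + 1) s t) = fun s => H x s t := by
      funext s; exact (hper x s t).1
    have h2 := hdG (x + 1) t
    rw [h1, hdG] at h2
    have h3 : G (x, P (x + 1) v t, t) = G (x + 1, P (x + 1) v t, t) := congrFun h2 (P (x + 1) v t)
    rw [h3, hGP]
  have hPper2 : ∀ x v t, P x v (t + 1) = P x v t := by
    intro x v t
    apply (hmono x t).injective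
    show G (x, P x v (t + 1), t) = G (x, P x v t, t)
    rw [hGP]
    have h1 : (fun s => H x s (t + 1)) = fun s => H x s t := by
      funext s; exact (hper x s t).2
    have h2 := hdG x (t + 1)
    rw [h1, hdG] at h2
    have h3 : G (x, P x v (t + 1), t) = G (x, P x v (t + 1), t + 1) :=
      congrFun h2 (P x v (t + 1))
    rw [h3, hGP]
  refine ⟨fun x v t => P x v t * v - H x (P x v t) t, P, hls, hPs, ?_, ?_, ?_, ?_, ?_, ?_, ?_⟩
  · intro x v t
    rw [hdG]; exact hGP x v t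
  · intro x p t
    rw [hdG]; exact hPG x p t
  · intro x v t
    obtain ⟨P', hP'⟩ := hPv x v t
    have h1 : HasDerivAt (fun s => H x (P x s t) t) (v * P') v := by
      have h2 := hHp x (P x v t) t
      rw [hGP] at h2
      exact h2.comp v hP'
    have h3 := (hP'.mul (hasDerivAt_id v)).sub h1
    refine h3.congr_deriv ?_
    simp only [id]
    ring
  · intro x v t
    obtain ⟨P', hP'⟩ := hPx x v t
    have h1 := hasDerivAt_curve hFd (fun s => P s v t) P' x t hP'
    have h2 := hasDerivAt_curve hFd (fun _ => P x v t) 0 x t (hasDerivAt_const x _)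
    have h3 : deriv (fun s => H s (P x v t) t) x = fderiv ℝ F (x, P x v t, t) (1, 0, 0) := h2.deriv
    have h4 : ((1, P', 0) : E3) = (1, 0, 0) + P' • (0, 1, 0) := by simp
    have h5 : fderiv ℝ F (x, P x v t, t) (1, P', 0) =
        fderiv ℝ F (x, P x v t, t) (1, 0, 0) + P' * v := by
      rw [h4, map_add, map_smul, smul_eq_mul]
      have : fderiv ℝ F (x, P x v t, t) (0, 1, 0) = v := hGP x v t
      rw [this]
    have h6 := (hP'.mul_const v).sub h1
    refine h6.congr_deriv ?_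
    rw [h3, h5]
    ring
  · intro x v t
    obtain ⟨P', hP'⟩ := hPv x v t
    rw [hP'.deriv]
    have h1 : HasDerivAt (fun s => G (x, P x s t, t))
        (fderiv ℝ G (x, P x v t, t) (0, 1, 0) * P') v :=
      HasDerivAt.comp v (h₂ := fun s => G (x, s, t)) (hGp x (P x v t) t) hP'
    have h2 : (fun s => G (x, P x s t, t)) = fun s => s := by funext s; exact hGP x s t
    rw [h2] at h1
    have h3 := h1.unique (hasDerivAt_id v)
    have h4 := hpp' x (P x v t) t
    by_contra hcon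
    push Not at hcon
    nlinarith [mul_nonneg h4.le (neg_nonneg.2 hcon)]
  · intro K
    obtain ⟨B, hB⟩ := hbd |K|
    refine ⟨B, fun x v t => ?_⟩
    rcases le_total 0 v with hv | hv
    · have h1 := hP x v t K
      have h2 := hB x K t le_rfl
      rw [abs_of_nonneg hv]
      simp only
      linarith
    · have h1 := hP x v t (-K)
      have h2 := hB x (-K) t (by rw [abs_neg])
      rw [abs_of_nonpos hv]
      simp only
      linarith
  · intro x v t
    constructor
    · show P (x + 1) v t * v - H (x + 1) (P (x + 1) v t) t = P x v t * v - H x (P x v t) t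
      rw [hPper1, (hper x _ t).1]
    · show P x v (t + 1) * v - H x (P x v (t + 1)) (t + 1) = P x v t * v - H x (P x v t) t
      rw [hPper2, (hper x _ t).2]

end Pool.Agent.W825.TL
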